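import Mathlib
import Pool.Agent.H367R2.H10.Fin3

set_option autoImplicit false
universe u

namespace Pool.Agent.Results.MP_c082ff_lc.PositiveCharacteristic

/-- For every field `K` of positive characteristic, no algorithm decides which finite systems of
polynomial equations with natural coefficients, plus conditions that certain variables lie
outside or inside `K`, have a solution in `K(t)`. -/
theorem result (K : Type u) [Field K] (p : ℕ) [Fact p.Prime] [CharP K p] :
    ¬ ComputablePred
        (fun q : List (List (List ℕ × ℕ) × List (List ℕ × ℕ)) × List ℕ × List ℕ =>
          ∃ x : ℕ → RatFunc K,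
            (∀ e ∈ q.1,
              (e.1.map (fun m => (m.2 : RatFunc K) *
                  ((List.range m.1.length).map (fun i => x i ^ m.1.getD i 0)).prod)).sum =
              (e.2.map (fun m => (m.2 : RatFunc K) *
                  ((List.range m.1.length).map (fun i => x i ^ m.1.getD i 0)).prod)).sum) ∧
            (∀ i ∈ q.2.1, x i ∉ Set.range (algebraMap K (RatFunc K))) ∧
            (∀ i ∈ q.2.2, x i ∈ Set.range (algebraMap K (RatFunc K)))) :=
  Pool.Agent.H367R2.H10.undecidable_pred K p

end Pool.Agent.Results.MP_c082ff_lc.PositiveCharacteristic
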